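import Mathlib
import Pool.Agent.R945.LD.One

set_option autoImplicit false

namespace Pool.Agent.Results.MP_fe1d70_nt.SunOneModFour

open Pool.Agent.R945.LD

theorem result (p : ℕ) [Fact p.Prime] (hp : p % 4 = 1) :
    (Matrix.det (Matrix.of fun j k : Fin ((p - 1) / 2) =>
        legendreSym p (((j : ℤ) + 1) + ((k : ℤ) + 1)) -
          legendreSym p (((j : ℤ) + 1) - ((k : ℤ) + 1))) = (-(p : ℤ)) ^ ((p - 1) / 4)) ∧
    ∀ (R : Type) [CommRing R] (x y z w : R),
      Matrix.det (Matrix.of fun j k : Fin ((p - 1) / 2) =>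
        x + (legendreSym p (((j : ℤ) + 1) + ((k : ℤ) + 1)) : R)
          + (legendreSym p (((j : ℤ) + 1) - ((k : ℤ) + 1)) : R)
          + (legendreSym p ((j : ℤ) + 1) : R) * y
          + (legendreSym p ((k : ℤ) + 1) : R) * z
          + (legendreSym p (((j : ℤ) + 1) * ((k : ℤ) + 1)) : R) * w) =
      (-(p : R)) ^ ((p - 5) / 4) *
        ((((p - 1) / 2 : ℕ) : R) ^ 2 * w * x
          - ((((p - 1) / 2 : ℕ) : R) * y - 1) * ((((p - 1) / 2 : ℕ) : R) * z - 1)) := by
  have hpp : p.Prime := Fact.out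
  obtain ⟨m, hm⟩ : ∃ m, p = 2 * m + 1 := ⟨p / 2, by omega⟩
  have hm1 : (p - 1) / 2 = m := by omega
  have hq4 : (p - 1) / 4 = m / 2 := by omega
  have hq5 : (p - 5) / 4 = m / 2 - 1 := by omega
  have hL : ∀ a : ℤ, legendreSym p a = q p (a : ZMod p) := fun a => rfl
  constructor
  · rw [hm1, hq4, ← det_A hp hm]
    congr 1
    ext j k
    simp only [Matrix.of_apply, Am, J, hL]
    push_cast
    rfl
  · intro R _ x y z w
    rw [hm1, hq5]
    have h := det_four hp hm x y z w
    have hB : (Bm p m R).det = -(-(p : R)) ^ (m / 2 - 1) := by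
      have hmap : (Bm p m ℤ).map (Int.castRingHom R) = Bm p m R := by
        ext i j; simp [Bm]
      have h2 := (Int.castRingHom R).map_det (Bm p m ℤ)
      rw [RingHom.mapMatrix_apply, hmap, det_B hp hm] at h2
      rw [← h2]
      simp
    rw [hB] at h
    have hM : (Matrix.of fun j k : Fin m =>
        x + (legendreSym p (((j : ℤ) + 1) + ((k : ℤ) + 1)) : R)
          + (legendreSym p (((j : ℤ) + 1) - ((k : ℤ) + 1)) : R)
          + (legendreSym p ((j : ℤ) + 1) : R) * y
          + (legendreSym p ((k : ℤ) + 1) : R) * z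
          + (legendreSym p (((j : ℤ) + 1) * ((k : ℤ) + 1)) : R) * w) =
        (Matrix.of fun j k : Fin m => x + Bm p m R j k + xv p m R j * y + xv p m R k * z
          + xv p m R j * xv p m R k * w) := by
      ext j k
      simp only [Matrix.of_apply, Bm, xv, J, hL]
      push_cast
      rw [q_mul]
      push_cast
      ring
    rw [hM, h]
    ring

end Pool.Agent.Results.MP_fe1d70_nt.SunOneModFour
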